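import Pool.Agent.BEH.Stmts

set_option autoImplicit false

namespace Pool.Agent.BEH.H27

open Set Filter Topology MeasureTheory

/-- the bump -/
noncomputable def bu : ContDiffBump (23 / 40 : ℝ) := ⟨1 / 5, 3 / 10, by norm_num, by norm_num⟩

/-- the density -/
noncomputable def be (s : ℝ) : ℝ := bu.normed volume s

theorem be_nonneg (s : ℝ) : 0 ≤ be s := bu.nonneg_normed s

theorem be_le (s : ℝ) : be s ≤ 5 / 2 := by
  have h := bu.normed_le_div_measure_closedBall_rIn volume s
  have h1 : (volume : Measure ℝ).real (Metric.closedBall (23 / 40 : ℝ) bu.rIn) = 2 / 5 := by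
    rw [Real.volume_real_closedBall]
    · show 2 * (1 / 5 : ℝ) = 2 / 5
      norm_num
    · show (0 : ℝ) ≤ 1 / 5
      norm_num
  rw [h1] at h
  unfold be
  linarith [show (1 : ℝ) / (2 / 5) = 5 / 2 by norm_num]

theorem be_cont : Continuous be := bu.continuous_normed

theorem be_smooth : ContDiff ℝ ((⊤ : ℕ∞) : WithTop ℕ∞) be := bu.contDiff_normed

theorem be_supp : Function.support be = Ioo (11 / 40 : ℝ) (7 / 8) := by
  have h : Function.support be = Metric.ball (23 / 40 : ℝ) bu.rOut := bu.support_normed_eq
  rw [h, Real.ball_eq_Ioo]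
  show Ioo (23 / 40 - 3 / 10 : ℝ) (23 / 40 + 3 / 10) = _
  norm_num

theorem be_zero {s : ℝ} (h : s ≤ 11 / 40 ∨ 7 / 8 ≤ s) : be s = 0 := by
  by_contra hne
  have : s ∈ Function.support be := hne
  rw [be_supp] at this
  rcases h with h | h
  · exact absurd this.1 (not_lt.2 h)
  · exact absurd this.2 (not_lt.2 h)

theorem be_int : ∫ s, be s = 1 := bu.integral_normed

/-- the profile -/
noncomputable def chf (s : ℝ) : ℝ := 1 - ∫ t in (11 / 40 : ℝ)..s, be t

theorem chi_deriv (s : ℝ) : HasDerivAt chf (-be s) s := by
  have h := (intervalIntegral.integral_hasDerivAt_right (be_cont.intervalIntegrable (11 / 40) s)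
    (be_cont.stronglyMeasurableAtFilter _ _) be_cont.continuousAt).const_sub 1
  exact h

theorem chi_deriv' : deriv chf = fun s => -be s := funext fun s => (chi_deriv s).deriv

theorem chi : ChiStmt := by
  refine ⟨chf, ?_, ?_, ?_, ?_, ?_, ?_, ?_⟩
  · rw [contDiff_infty_iff_deriv]
    refine ⟨fun s => (chi_deriv s).differentiableAt, ?_⟩
    rw [chi_deriv']
    exact be_smooth.neg
  · refine antitone_of_deriv_nonpos (fun s => (chi_deriv s).differentiableAt) fun s => ?_
    rw [chi_deriv']
    exact neg_nonpos.2 (be_nonneg s)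
  · intro s hs
    unfold chf
    have : ∫ t in (11 / 40 : ℝ)..s, be t = ∫ t in (11 / 40 : ℝ)..s, (0 : ℝ) := by
      refine intervalIntegral.integral_congr fun t ht => ?_
      rw [uIcc_of_ge (by linarith)] at ht
      exact be_zero (Or.inl ht.2)
    rw [this]
    simp
  · intro s hs
    unfold chf
    have : ∫ t in (11 / 40 : ℝ)..s, be t = ∫ t, be t := by
      refine intervalIntegral.integral_eq_integral_of_support_subset ?_
      rw [be_supp]
      exact fun t ht => ⟨ht.1, ht.2.le.trans hs⟩
    rw [this, be_int]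
    norm_num
  · intro s
    rw [chi_deriv']
    simp only [abs_neg]
    rw [abs_of_nonneg (be_nonneg s)]
    exact be_le s
  · intro s hs
    rw [chi_deriv']
    simp only [neg_eq_zero]
    rcases hs with h | h
    · exact be_zero (Or.inl (by linarith))
    · exact be_zero (Or.inr h)
  · rw [chi_deriv']
    have h1 : ∫ s, (-be s) ^ 2 ≤ ∫ s, (5 / 2) * be s := by
      refine integral_mono_of_nonneg (Eventually.of_forall fun s => sq_nonneg _) ?_
        (Eventually.of_forall fun s => ?_)
      · exact (bu.integrable_normed).const_mul _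
      · have h2 := be_nonneg s
        have h3 := be_le s
        show (-be s) ^ 2 ≤ (5 / 2) * be s
        nlinarith
    rw [integral_const_mul, be_int] at h1
    linarith

end Pool.Agent.BEH.H27
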